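import Mathlib

open Cardinal

namespace Pool.Agent.Results.MP_98dabe_lc.Full

/-- agreement on the first `n` coordinates -/
def P (n : ℕ) : Setoid (ℕ → Bool) := Setoid.ker fun x (i : Fin n) => x i

def ex {n : ℕ} (a : Fin n → Bool) : ℕ → Bool := fun i => if h : i < n then a ⟨i, h⟩ else false

lemma P_ex (n : ℕ) (x : ℕ → Bool) : P n x (ex fun i : Fin n => x i) := by
  show (fun i : Fin n => x i) = fun i : Fin n => ex (fun i : Fin n => x i) i
  funext i
  simp [ex]

lemma P_anti {m n : ℕ} (h : m ≤ n) : P n ≤ P m := by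
  intro x y hxy
  funext i
  exact congrFun hxy ⟨i, by omega⟩

lemma fin_up (n : ℕ) : {R : Setoid (ℕ → Bool) | P n ≤ R}.Finite := by
  apply Set.Finite.of_finite_image (f := fun R (a b : Fin n → Bool) => R (ex a) (ex b))
    (Set.toFinite _)
  intro R hR S hS h
  ext x y
  have e := congrFun (congrFun h fun i => x i) fun i => y i
  constructor
  · intro hxy
    have : R (ex fun i : Fin n => x i) (ex fun i : Fin n => y i) :=
      R.trans (R.symm (hR (P_ex n x))) (R.trans hxy (hR (P_ex n y)))
    exact S.trans (hS (P_ex n x)) (S.trans (e.mp this) (S.symm (hS (P_ex n y))))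
  · intro hxy
    have : S (ex fun i : Fin n => x i) (ex fun i : Fin n => y i) :=
      S.trans (S.symm (hS (P_ex n x))) (S.trans hxy (hS (P_ex n y)))
    exact R.trans (hR (P_ex n x)) (R.trans (e.mpr this) (R.symm (hR (P_ex n y))))

theorem result : ∃ X : Type, Infinite X ∧ ∃ C : Set (Setoid X), IsMaxChain (· ≤ ·) C ∧
    C.Countable ∧ #C < (#X).ord.cof := by
  have hc : IsChain (· ≤ ·) (Set.range P) := by
    rintro _ ⟨m, rfl⟩ _ ⟨n, rfl⟩ _
    rcases le_total m n with h | h
    exacts [Or.inr (P_anti h), Or.inl (P_anti h)]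
  obtain ⟨C, hC, hs⟩ := hc.exists_maxChain
  have hcount : C.Countable := by
    refine Set.Countable.mono (s₂ := {⊥} ∪ ⋃ n, {R | P n ≤ R}) ?_
      ((Set.countable_singleton _).union (Set.countable_iUnion fun n => (fin_up n).countable))
    intro R hR
    by_cases h : ∃ n, P n ≤ R
    · exact Or.inr (Set.mem_iUnion.2 h)
    · left
      refine le_bot_iff.1 fun x y hxy => ?_
      funext i
      have := (hC.1.total hR (hs ⟨i + 1, rfl⟩)).resolve_right fun h' => h ⟨_, h'⟩
      exact congrFun (this hxy) ⟨i, by omega⟩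
  refine ⟨ℕ → Bool, inferInstance, C, hC, hcount, ?_⟩
  have e : #(ℕ → Bool) = 2 ^ ℵ₀ := by simp
  rw [e]
  exact (Cardinal.le_aleph0_iff_set_countable.2 hcount).trans_lt
    (Cardinal.lt_cof_ord_power le_rfl (by norm_num))

end Pool.Agent.Results.MP_98dabe_lc.Full
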